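import Pool.Agent.H29.VC.Defs

namespace Pool.Agent.H29.VC

/-- Two cells whose words agree on at least `m` coordinates are equal. -/
theorem eq_of_agree_on {m n k : ℕ} {C : Fin k → (Fin m → Fin n) → Fin n} (h : IsVarSet C)
    (T : Finset (Fin k)) (hT : m ≤ T.card) (x y : Fin m → Fin n)
    (hxy : ∀ l ∈ T, C l x = C l y) : x = y := by
  obtain ⟨s, hs, hc⟩ := Finset.exists_subset_card_eq hT
  apply (h.2 (s.orderEmbOfFin hc).toEmbedding).1
  funext j
  exact hxy _ (hs (Finset.orderEmbOfFin_mem s hc j))

/-- The embedding `0, …, m-2, i` of `Fin m`, for `i ≥ m - 1`. -/
def emb {m k : ℕ} (i : Fin k) (hi : m ≤ i.1 + 1) : Fin m ↪ Fin k where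
  toFun j := if hj : j.1 + 1 < m then ⟨j.1, by have := i.2; omega⟩ else i
  inj' a b hab := by
    have ha := a.2
    have hb := b.2
    by_cases h1 : a.1 + 1 < m <;> by_cases h2 : b.1 + 1 < m
    · simp only [h1, h2, dif_pos, Fin.mk.injEq] at hab
      exact Fin.ext hab
    · simp only [h1, h2, dif_pos, dif_neg, not_false_eq_true] at hab
      have := congrArg Fin.val hab
      simp only at this
      omega
    · simp only [h1, h2, dif_pos, dif_neg, not_false_eq_true] at hab
      have := congrArg Fin.val hab
      simp only at this
      omega
    · apply Fin.ext
      omega

/-- Bush's bound for variational sets. -/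
theorem bush {m n k : ℕ} (hm : 2 ≤ m) (hn : 2 ≤ n)
    {C : Fin k → (Fin m → Fin n) → Fin n} (h : IsVarSet C) : k ≤ n + m - 1 := by
  by_contra hk
  have hkm : m + n ≤ k := by omega
  -- the fixed cell and the value `b`
  let x0 : Fin m → Fin n := fun _ => ⟨0, by omega⟩
  let c1 : Fin k := ⟨m - 2, by omega⟩
  let c2 : Fin k := ⟨m - 1, by omega⟩
  obtain ⟨b, hb⟩ : ∃ b : Fin n, b ≠ C c1 x0 := by
    have : Nontrivial (Fin n) := Fin.nontrivial_iff_two_le.2 hn
    exact exists_ne _
  -- the words `x_i`
  have ex : ∀ i : Fin n, ∃ x : Fin m → Fin n,
      (∀ l : Fin k, l.1 + 2 < m → C l x = C l x0) ∧ C c1 x = b ∧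
        C ⟨m + i.1, by omega⟩ x = C ⟨m + i.1, by omega⟩ x0 := by
    intro i
    have hi : m ≤ (⟨m + i.1, by omega⟩ : Fin k).1 + 1 := by
      show m ≤ m + i.1 + 1
      omega
    obtain ⟨x, hx⟩ := (h.2 (emb (⟨m + i.1, by omega⟩ : Fin k) hi)).2
      (fun j => if j.1 + 2 < m then C (emb (⟨m + i.1, by omega⟩ : Fin k) hi j) x0
        else if j.1 + 1 < m then b else C ⟨m + i.1, by omega⟩ x0)
    refine ⟨x, ?_, ?_, ?_⟩
    · intro l hl
      have := congrFun hx ⟨l.1, by omega⟩
      simp only [emb, Function.Embedding.coeFn_mk] at this
      rw [dif_pos (by omega), if_pos hl] at this
      exact this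
    · have := congrFun hx ⟨m - 2, by omega⟩
      simp only [emb, Function.Embedding.coeFn_mk] at this
      rw [dif_pos (by omega), if_neg (by omega), if_pos (by omega)] at this
      exact this
    · have := congrFun hx ⟨m - 1, by omega⟩
      simp only [emb, Function.Embedding.coeFn_mk] at this
      rw [dif_neg (by omega), if_neg (by omega), if_neg (by omega)] at this
      exact this
  choose X hX1 hX2 hX3 using ex
  -- the values at the coordinate `m - 1` are distinct and differ from that of `x0`
  have hne : ∀ i : Fin n, C c2 (X i) ≠ C c2 x0 := by
    intro i he
    have hx : X i = x0 := by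
      apply eq_of_agree_on h ((Finset.univ.filter fun l : Fin k => l.1 + 2 < m) ∪
        {c2, ⟨m + i.1, by omega⟩})
      · rw [Finset.card_union_of_disjoint]
        · rw [Finset.card_pair]
          · have : (Finset.univ.filter fun l : Fin k => l.1 + 2 < m).card = m - 2 := by
              have e : (Finset.univ.filter fun l : Fin k => l.1 + 2 < m) =
                  (Finset.univ : Finset (Fin (m - 2))).map (Fin.castLEEmb (by omega)) := by
                ext l
                simp only [Finset.mem_filter, Finset.mem_univ, true_and, Finset.mem_map,
                  Fin.castLEEmb_apply]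
                constructor
                · intro hl
                  exact ⟨⟨l.1, by omega⟩, rfl⟩
                · rintro ⟨a, rfl⟩
                  have := a.2
                  simp only [Fin.val_castLE]
                  omega
              rw [e, Finset.card_map, Finset.card_univ, Fintype.card_fin]
            rw [this]
            omega
          · intro he2
            have := congrArg Fin.val he2
            simp only [c2] at this
            omega
        · rw [Finset.disjoint_left]
          intro l hl hl2
          simp only [Finset.mem_filter, Finset.mem_univ, true_and] at hl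
          simp only [Finset.mem_insert, Finset.mem_singleton, c2] at hl2
          rcases hl2 with rfl | rfl
          · simp only at hl
            omega
          · simp only at hl
            omega
      · intro l hl
        simp only [Finset.mem_union, Finset.mem_filter, Finset.mem_univ, true_and,
          Finset.mem_insert, Finset.mem_singleton] at hl
        rcases hl with hl | rfl | rfl
        · exact hX1 i l hl
        · exact he
        · exact hX3 i
    apply hb
    rw [← hX2 i, hx]
  have hinj : Function.Injective fun i : Fin n => C c2 (X i) := by
    intro i j hij
    by_contra hne2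
    have hx : X i = X j := by
      apply eq_of_agree_on h ((Finset.univ.filter fun l : Fin k => l.1 < m))
      · have e : (Finset.univ.filter fun l : Fin k => l.1 < m) =
            (Finset.univ : Finset (Fin m)).map (Fin.castLEEmb (by omega)) := by
          ext l
          simp only [Finset.mem_filter, Finset.mem_univ, true_and, Finset.mem_map,
            Fin.castLEEmb_apply]
          constructor
          · intro hl
            exact ⟨⟨l.1, by omega⟩, rfl⟩
          · rintro ⟨a, rfl⟩
            have := a.2
            simp only [Fin.val_castLE]
            omega
        rw [e, Finset.card_map, Finset.card_univ, Fintype.card_fin]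
      · intro l hl
        simp only [Finset.mem_filter, Finset.mem_univ, true_and] at hl
        by_cases h1 : l.1 + 2 < m
        · rw [hX1 i l h1, hX1 j l h1]
        · by_cases h2 : l.1 + 1 < m
          · have e : l = c1 := Fin.ext (by simp only [c1]; omega)
            rw [e, hX2, hX2]
          · have e : l = c2 := Fin.ext (by simp only [c2]; omega)
            rw [e]
            exact hij
    have hx0 : X i = x0 := by
      apply eq_of_agree_on h ((Finset.univ.filter fun l : Fin k => l.1 + 2 < m) ∪
        {⟨m + i.1, by omega⟩, ⟨m + j.1, by omega⟩})
      · rw [Finset.card_union_of_disjoint]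
        · rw [Finset.card_pair]
          · have : (Finset.univ.filter fun l : Fin k => l.1 + 2 < m).card = m - 2 := by
              have e : (Finset.univ.filter fun l : Fin k => l.1 + 2 < m) =
                  (Finset.univ : Finset (Fin (m - 2))).map (Fin.castLEEmb (by omega)) := by
                ext l
                simp only [Finset.mem_filter, Finset.mem_univ, true_and, Finset.mem_map,
                  Fin.castLEEmb_apply]
                constructor
                · intro hl
                  exact ⟨⟨l.1, by omega⟩, rfl⟩
                · rintro ⟨a, rfl⟩
                  have := a.2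
                  simp only [Fin.val_castLE]
                  omega
              rw [e, Finset.card_map, Finset.card_univ, Fintype.card_fin]
            rw [this]
            omega
          · intro he2
            apply hne2
            have := congrArg Fin.val he2
            simp only at this
            exact Fin.ext (by omega)
        · rw [Finset.disjoint_left]
          intro l hl hl2
          simp only [Finset.mem_filter, Finset.mem_univ, true_and] at hl
          simp only [Finset.mem_insert, Finset.mem_singleton] at hl2
          rcases hl2 with rfl | rfl
          · simp only at hl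
            omega
          · simp only at hl
            omega
      · intro l hl
        simp only [Finset.mem_union, Finset.mem_filter, Finset.mem_univ, true_and,
          Finset.mem_insert, Finset.mem_singleton] at hl
        rcases hl with hl | rfl | rfl
        · exact hX1 i l hl
        · exact hX3 i
        · rw [hx]
          exact hX3 j
    apply hb
    rw [← hX2 i, hx0]
  -- an injective self-map of `Fin n` is onto
  obtain ⟨i, hi⟩ := (Finite.injective_iff_surjective.1 hinj) (C c2 x0)
  exact hne i hi

end Pool.Agent.H29.VC
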