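import Mathlib

/-!
Definitions for MP_c7a479_co: permutation cubes, variational sets of permutation cubes, and the
largest size `piMax m n` of a variational set of `m`-dimensional permutation cubes of order `n`.
-/

namespace Pool.Agent.H29.VC

/-- `C : (ι → α) → α` is a permutation cube (the coordinates are indexed by `ι`, the order is the
number of elements of `α`): on every line parallel to an axis (all coordinates but one fixed, the
coordinate `i` free) the values of `C` form a permutation of `α`. -/
def IsPermCube {ι α : Type} [DecidableEq ι] (C : (ι → α) → α) : Prop :=
  ∀ (x : ι → α) (i : ι), Function.Bijective fun a : α => C (Function.update x i a)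

/-- The family `C k`, `k : κ`, of permutation cubes is a variational set: any `m = |ι|` cubes of the
family with distinct indices form a variational cube, that is, the map
`x ↦ (C_1(x), …, C_m(x))` is a bijection. -/
def IsVarSet {ι κ α : Type} [DecidableEq ι] (C : κ → (ι → α) → α) : Prop :=
  (∀ k, IsPermCube (C k)) ∧
    ∀ s : ι ↪ κ, Function.Bijective fun (x : ι → α) (j : ι) => C (s j) x

/-- `HasVarSet m n k`: there is a variational set of `k` permutation cubes of dimension `m` and
order `n`. -/
def HasVarSet (m n k : ℕ) : Prop :=
  ∃ C : Fin k → (Fin m → Fin n) → Fin n, IsVarSet C

/-- The number `π_m(n)`: the largest `k` for which a variational set of `k` permutation cubes of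
dimension `m` and order `n` exists. -/
noncomputable def piMax (m n : ℕ) : ℕ :=
  sSup {k | HasVarSet m n k}

end Pool.Agent.H29.VC
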