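import Pool.Agent.H29.VC.Pairs

/-!
MP_c7a479_co: `π_m(n) = m + 1` for all `m ≥ n ≥ 3`, `m ≥ 3`, whenever there are two orthogonal
latin squares of order `n` (that is, for all `n` but `2` and `6`); and `π_m(n) ≥ m + 1` for all
`m ≥ 3` for these `n`.
-/

namespace Pool.Agent.H29.VC.HighDimension

open Pool.Agent.H29.VC

theorem result : ∀ m n : ℕ, 3 ≤ m → 2 ≤ n → (n % 4 ≠ 2 ∨ 2 ≤ piMax 2 n) →
    m + 1 ≤ piMax m n ∧ (n ≤ m → piMax m n = m + 1) := by
  intro m n hm hn hp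
  have hP : Nonempty (Pair (Fin n)) := by
    rcases hp with h4 | h2
    · exact pair_of_mod (by omega) h4
    · exact pair_of_piMax h2
  obtain ⟨P⟩ := hP
  have : Nonempty (Fin n) := ⟨⟨0, by omega⟩⟩
  have hmem : HasVarSet m n (m + 1) := varSet P hm
  have hle : m + 1 ≤ piMax m n := le_csSup (bdd (by omega) hn) hmem
  refine ⟨hle, fun hnm => le_antisymm ?_ hle⟩
  refine csSup_le ⟨_, hmem⟩ ?_
  rintro k ⟨C, hC⟩
  exact upper hn hnm hC

end Pool.Agent.H29.VC.HighDimension
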