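import Pool.Agent.H29.VC.Defs

namespace Pool.Agent.H29.VC

open Function

/-- Two orthogonal latin squares on `α`. -/
structure Pair (α : Type) where
  A : α → α → α
  B : α → α → α
  Al : ∀ y, Bijective fun x => A x y
  Ar : ∀ x, Bijective fun y => A x y
  Bl : ∀ y, Bijective fun x => B x y
  Br : ∀ x, Bijective fun y => B x y
  orth : ∀ x y x' y', A x y = A x' y' → B x y = B x' y' → x = x' ∧ y = y'

/-- `m` permutation cubes of dimension `m` that are jointly injective. -/
def Good (α : Type) (m : ℕ) : Prop :=
  ∃ p : ℕ → (Fin m → α) → α, (∀ i, i < m → IsPermCube (p i)) ∧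
    ∀ x y, (∀ i, i < m → p i x = p i y) → x = y

variable {α : Type}

/-- The `t`-th vertex of the path: even vertices are functions of the first `h` coordinates, odd
vertices are functions of the last `l` coordinates. -/
def vert {h l : ℕ} (p : ℕ → (Fin h → α) → α) (q : ℕ → (Fin l → α) → α) (t : ℕ)
    (x : Fin (h + l) → α) : α :=
  if t % 2 = 0 then p (t / 2) (x ∘ Fin.castAdd l) else q (t / 2) (x ∘ Fin.natAdd h)

section
variable {h l : ℕ} {p : ℕ → (Fin h → α) → α} {q : ℕ → (Fin l → α) → α}

theorem natAdd_ne_castAdd (i0 : Fin h) (j : Fin l) : Fin.natAdd h j ≠ Fin.castAdd l i0 := by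
  intro he
  have := congrArg Fin.val he
  simp only [Fin.val_natAdd, Fin.val_castAdd] at this
  have := i0.2
  omega

theorem castAdd_ne_natAdd (i : Fin h) (j0 : Fin l) : Fin.castAdd l i ≠ Fin.natAdd h j0 :=
  fun he => natAdd_ne_castAdd i j0 he.symm

theorem vert_even_left (hp : ∀ i, i < h → IsPermCube (p i)) {t : ℕ} (ht : t % 2 = 0)
    (hth : t / 2 < h) (x : Fin (h + l) → α) (i0 : Fin h) :
    Bijective fun a => vert p q t (update x (Fin.castAdd l i0) a) := by
  have e : (fun a => vert p q t (update x (Fin.castAdd l i0) a)) =
      fun a => p (t / 2) (update (x ∘ Fin.castAdd l) i0 a) := by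
    funext a
    rw [vert, if_pos ht, update_comp_eq_of_injective _ (Fin.castAdd_injective h l)]
  rw [e]
  exact hp _ hth _ _

theorem vert_even_right {t : ℕ} (ht : t % 2 = 0) (x : Fin (h + l) → α) (j0 : Fin l) (a : α) :
    vert p q t (update x (Fin.natAdd h j0) a) = vert p q t x := by
  rw [vert, if_pos ht, vert, if_pos ht,
    update_comp_eq_of_forall_ne _ _ (fun i => castAdd_ne_natAdd i j0)]

theorem vert_odd_right (hq : ∀ i, i < l → IsPermCube (q i)) {t : ℕ} (ht : ¬ t % 2 = 0)
    (htl : t / 2 < l) (x : Fin (h + l) → α) (j0 : Fin l) :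
    Bijective fun a => vert p q t (update x (Fin.natAdd h j0) a) := by
  have e : (fun a => vert p q t (update x (Fin.natAdd h j0) a)) =
      fun a => q (t / 2) (update (x ∘ Fin.natAdd h) j0 a) := by
    funext a
    rw [vert, if_neg ht, update_comp_eq_of_injective _ (Fin.natAdd_injective l h)]
  rw [e]
  exact hq _ htl _ _

theorem vert_odd_left {t : ℕ} (ht : ¬ t % 2 = 0) (x : Fin (h + l) → α) (i0 : Fin h) (a : α) :
    vert p q t (update x (Fin.castAdd l i0) a) = vert p q t x := by
  rw [vert, if_neg ht, vert, if_neg ht,
    update_comp_eq_of_forall_ne _ _ (fun j => natAdd_ne_castAdd i0 j)]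

/-- A latin function of two neighbouring vertices is a permutation cube. -/
theorem edge_perm (hp : ∀ i, i < h → IsPermCube (p i)) (hq : ∀ i, i < l → IsPermCube (q i))
    (h1 : l ≤ h) (h2 : h ≤ l + 1) (f : α → α → α) (fl : ∀ y, Bijective fun x => f x y)
    (fr : ∀ x, Bijective fun y => f x y) {t : ℕ} (ht : t + 1 < h + l) :
    IsPermCube fun x : Fin (h + l) → α => f (vert p q t x) (vert p q (t + 1) x) := by
  intro x i
  refine Fin.addCases (fun i0 => ?_) (fun j0 => ?_) i
  · by_cases he : t % 2 = 0
    · have ho : ¬ (t + 1) % 2 = 0 := by omega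
      simp only [vert_odd_left ho]
      exact (fl _).comp (vert_even_left hp he (by omega) x i0)
    · have ho : (t + 1) % 2 = 0 := by omega
      simp only [vert_odd_left he]
      exact (fr _).comp (vert_even_left hp ho (by omega) x i0)
  · by_cases he : t % 2 = 0
    · have ho : ¬ (t + 1) % 2 = 0 := by omega
      simp only [vert_even_right he]
      exact (fr _).comp (vert_odd_right hq ho (by omega) x j0)
    · have ho : (t + 1) % 2 = 0 := by omega
      simp only [vert_even_right ho]
      exact (fl _).comp (vert_odd_right hq he (by omega) x j0)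

/-- All vertices together determine the cell. -/
theorem eq_of_vert (hp : ∀ x y, (∀ i, i < h → p i x = p i y) → x = y)
    (hq : ∀ x y, (∀ i, i < l → q i x = q i y) → x = y) (h1 : l ≤ h) (h2 : h ≤ l + 1)
    (x y : Fin (h + l) → α) (hxy : ∀ t, t < h + l → vert p q t x = vert p q t y) : x = y := by
  have eU : x ∘ Fin.castAdd l = y ∘ Fin.castAdd l := by
    apply hp
    intro i hi
    have := hxy (2 * i) (by omega)
    rwa [vert, if_pos (by omega), vert, if_pos (by omega), show 2 * i / 2 = i by omega] at this
  have eV : x ∘ Fin.natAdd h = y ∘ Fin.natAdd h := by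
    apply hq
    intro i hi
    have := hxy (2 * i + 1) (by omega)
    rwa [vert, if_neg (by omega), vert, if_neg (by omega),
      show (2 * i + 1) / 2 = i by omega] at this
  funext i
  refine Fin.addCases (fun i0 => ?_) (fun j0 => ?_) i
  · exact congrFun eU i0
  · exact congrFun eV j0

/-- The `m + 1` output cubes, `m = h + l`. -/
def out (P : Pair α) (p : ℕ → (Fin h → α) → α) (q : ℕ → (Fin l → α) → α) (i : ℕ)
    (x : Fin (h + l) → α) : α :=
  if i = 0 then P.B (vert p q 0 x) (vert p q 1 x)
  else if i = h + l then P.B (vert p q (h + l - 2) x) (vert p q (h + l - 1) x)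
  else P.A (vert p q (i - 1) x) (vert p q i x)

theorem out_perm (P : Pair α) (hp : ∀ i, i < h → IsPermCube (p i))
    (hq : ∀ i, i < l → IsPermCube (q i)) (h1 : l ≤ h) (h2 : h ≤ l + 1) (h3 : 2 ≤ h + l)
    {i : ℕ} (hi : i ≤ h + l) : IsPermCube (out P p q i) := by
  by_cases h0 : i = 0
  · have e : out P p q i = fun x => P.B (vert p q 0 x) (vert p q (0 + 1) x) := by
      funext x
      rw [out, if_pos h0]
    rw [e]
    exact edge_perm hp hq h1 h2 P.B P.Bl P.Br (by omega)
  · by_cases hm : i = h + l
    · have e : out P p q i =
          fun x => P.B (vert p q (h + l - 2) x) (vert p q (h + l - 2 + 1) x) := by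
        funext x
        rw [out, if_neg h0, if_pos hm, show h + l - 2 + 1 = h + l - 1 by omega]
      rw [e]
      exact edge_perm hp hq h1 h2 P.B P.Bl P.Br (by omega)
    · have e : out P p q i = fun x => P.A (vert p q (i - 1) x) (vert p q (i - 1 + 1) x) := by
        funext x
        rw [out, if_neg h0, if_neg hm, show i - 1 + 1 = i by omega]
      rw [e]
      exact edge_perm hp hq h1 h2 P.A P.Al P.Ar (by omega)

/-- From the left end: vertices below the omitted output are determined. -/
theorem left_det (P : Pair α) (x y : Fin (h + l) → α) (h3 : 2 ≤ h + l) {j : ℕ} (hj : 2 ≤ j)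
    (H : ∀ i, i ≤ h + l → i ≠ j → out P p q i x = out P p q i y) :
    ∀ t, t < j → t < h + l → vert p q t x = vert p q t y := by
  have o0 := H 0 (by omega) (by omega)
  have o1 := H 1 (by omega) (by omega)
  rw [out, if_pos rfl, out, if_pos rfl] at o0
  rw [out, if_neg (by omega), if_neg (by omega), out, if_neg (by omega), if_neg (by omega)] at o1
  obtain ⟨e0, e1⟩ := P.orth _ _ _ _ o1 o0
  intro t
  induction t with
  | zero => intro _ _; exact e0
  | succ t ih =>
    intro htj htm
    by_cases ht : t = 0
    · subst ht; exact e1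
    · have hv := ih (by omega) (by omega)
      have ot := H (t + 1) (by omega) (by omega)
      rw [out, if_neg (by omega), if_neg (by omega), out, if_neg (by omega),
        if_neg (by omega), show t + 1 - 1 = t by omega, hv] at ot
      exact (P.Ar _).1 ot

/-- From the right end: vertices not below the omitted output are determined. -/
theorem right_det (P : Pair α) (x y : Fin (h + l) → α) {j : ℕ} (hj : j + 2 ≤ h + l)
    (H : ∀ i, i ≤ h + l → i ≠ j → out P p q i x = out P p q i y) (h3 : 3 ≤ h + l) :
    ∀ s, s + 1 + j ≤ h + l → vert p q (h + l - 1 - s) x = vert p q (h + l - 1 - s) y := by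
  have o0 := H (h + l) (by omega) (by omega)
  have o1 := H (h + l - 1) (by omega) (by omega)
  rw [out, if_neg (by omega), if_pos rfl, out, if_neg (by omega), if_pos rfl] at o0
  rw [out, if_neg (by omega), if_neg (by omega), out, if_neg (by omega), if_neg (by omega),
    show h + l - 1 - 1 = h + l - 2 by omega] at o1
  obtain ⟨e0, e1⟩ := P.orth _ _ _ _ o1 o0
  intro s
  induction s with
  | zero => intro _; simpa using e1
  | succ s ih =>
    intro hs
    by_cases hs0 : s = 0
    · subst hs0
      rw [show h + l - 1 - (0 + 1) = h + l - 2 by omega]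
      exact e0
    · have hv := ih (by omega)
      have ot := H (h + l - 1 - s) (by omega) (by omega)
      rw [out, if_neg (by omega), if_neg (by omega), out, if_neg (by omega),
        if_neg (by omega), hv] at ot
      have e : h + l - 1 - (s + 1) = h + l - 1 - s - 1 := by omega
      rw [e]
      exact (P.Al _).1 ot

/-- Any `m` of the `m + 1` outputs determine all vertices. -/
theorem all_det (P : Pair α) (x y : Fin (h + l) → α) (h3 : 3 ≤ h + l) {j : ℕ} (hj : j ≤ h + l)
    (H : ∀ i, i ≤ h + l → i ≠ j → out P p q i x = out P p q i y) :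
    ∀ t, t < h + l → vert p q t x = vert p q t y := by
  intro t ht
  by_cases hj2 : 2 ≤ j
  · by_cases htj : t < j
    · exact left_det P x y (by omega) hj2 H t htj ht
    · by_cases hjr : j + 2 ≤ h + l
      · have := right_det P x y hjr H h3 (h + l - 1 - t) (by omega)
        rwa [show h + l - 1 - (h + l - 1 - t) = t by omega] at this
      · -- then `j = m - 1` and `t = m - 1`
        have hv := left_det P x y (by omega) hj2 H (h + l - 2) (by omega) (by omega)
        have o := H (h + l) (by omega) (by omega)
        rw [out, if_neg (by omega), if_pos rfl, out, if_neg (by omega), if_pos rfl, hv] at o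
        have e : t = h + l - 1 := by omega
        rw [e]
        exact (P.Br _).1 o
  · have hjr : j + 2 ≤ h + l := by omega
    by_cases htj : t < j
    · -- then `j = 1` and `t = 0`
      have hv := right_det P x y hjr H h3 (h + l - 1 - 1) (by omega)
      rw [show h + l - 1 - (h + l - 1 - 1) = 1 by omega] at hv
      have o := H 0 (by omega) (by omega)
      rw [out, if_pos rfl, out, if_pos rfl, hv] at o
      have e : t = 0 := by omega
      rw [e]
      exact (P.Bl _).1 o
    · have := right_det P x y hjr H h3 (h + l - 1 - t) (by omega)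
      rwa [show h + l - 1 - (h + l - 1 - t) = t by omega] at this

end

theorem good_zero [Nonempty α] : Good α 0 := by
  refine ⟨fun _ _ => Classical.arbitrary α, fun i hi => absurd hi (Nat.not_lt_zero _), ?_⟩
  intro x y _
  exact Subsingleton.elim x y

theorem good_one : Good α 1 := by
  refine ⟨fun _ x => x 0, fun i _ x k => ?_, ?_⟩
  · have hk : k = 0 := Subsingleton.elim _ _
    subst hk
    have e : (fun a => update x 0 a 0) = fun a : α => a := by
      funext a
      simp
    rw [e]
    exact bijective_id
  · intro x y hxy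
    funext k
    have hk : k = 0 := Subsingleton.elim _ _
    subst hk
    exact hxy 0 (by omega)

/-- Variational cubes exist in every dimension. -/
theorem good_all [Nonempty α] (P : Pair α) : ∀ m, Good α m := by
  intro m
  induction m using Nat.strong_induction_on with
  | _ m ih =>
    by_cases h0 : m = 0
    · subst h0; exact good_zero
    · by_cases h1 : m = 1
      · subst h1; exact good_one
      · obtain ⟨h, l, e, hl, hh⟩ : ∃ h l, h + l = m ∧ l ≤ h ∧ h ≤ l + 1 :=
          ⟨(m + 1) / 2, m / 2, by omega, by omega, by omega⟩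
        subst e
        obtain ⟨p, hp1, hp2⟩ := ih h (by omega)
        obtain ⟨q, hq1, hq2⟩ := ih l (by omega)
        refine ⟨out P p q, fun i hi => out_perm P hp1 hq1 hl hh (by omega) hi.le, ?_⟩
        intro x y hxy
        apply eq_of_vert hp2 hq2 hl hh
        intro t ht
        refine left_det P x y (by omega) (j := h + l) (by omega) ?_ t ht ht
        intro i hi hne
        exact hxy i (by omega)

/-- `m + 1` permutation cubes of dimension `m ≥ 3`, any `m` of which form a variational cube. -/
theorem varSet [Fintype α] [Nonempty α] (P : Pair α) {m : ℕ} (hm : 3 ≤ m) :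
    ∃ C : Fin (m + 1) → (Fin m → α) → α, IsVarSet C := by
  obtain ⟨h, l, e, hl, hh⟩ : ∃ h l, h + l = m ∧ l ≤ h ∧ h ≤ l + 1 :=
    ⟨(m + 1) / 2, m / 2, by omega, by omega, by omega⟩
  subst e
  obtain ⟨p, hp1, hp2⟩ := good_all P h
  obtain ⟨q, hq1, hq2⟩ := good_all P l
  refine ⟨fun i => out P p q i.1, fun i => ?_, fun s => ?_⟩
  · have := i.2
    exact out_perm P hp1 hq1 hl hh (by omega) (by omega)
  · have hns : ¬ Surjective s := by
      intro hs
      have := Fintype.card_le_of_surjective s hs
      simp only [Fintype.card_fin] at this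
      omega
    obtain ⟨j, hj⟩ : ∃ j, ∀ a, s a ≠ j := by
      by_contra hcon
      apply hns
      intro j
      by_contra hj
      exact hcon ⟨j, fun a ha => hj ⟨a, ha⟩⟩
    have hall : ∀ i, i ≠ j → ∃ a, s a = i := by
      intro i hij
      by_contra hi
      have hi' : ∀ a, s a ≠ i := fun a ha => hi ⟨a, ha⟩
      have hsub : Finset.univ.map s ⊆ ({i, j} : Finset (Fin (h + l + 1)))ᶜ := by
        intro b hb
        obtain ⟨a, _, rfl⟩ := Finset.mem_map.1 hb
        rw [Finset.mem_compl, Finset.mem_insert, Finset.mem_singleton]
        rintro (h' | h')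
        · exact hi' a h'
        · exact hj a h'
      have hc := Finset.card_le_card hsub
      rw [Finset.card_map, Finset.card_univ, Fintype.card_fin, Finset.card_compl,
        Finset.card_pair hij, Fintype.card_fin] at hc
      omega
    have hinj : Injective fun (x : Fin (h + l) → α) (a : Fin (h + l)) => out P p q (s a).1 x := by
      intro x y hxy
      apply eq_of_vert hp2 hq2 hl hh
      refine all_det P x y hm (j := j.1) (by omega) ?_
      intro i hi hij
      obtain ⟨a, ha⟩ := hall ⟨i, by omega⟩ (fun he => hij (congrArg Fin.val he))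
      have := congrFun hxy a
      simp only [ha] at this
      exact this
    exact Finite.injective_iff_bijective.1 hinj

end Pool.Agent.H29.VC
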