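import Pool.Agent.H29.VC.Bush

/-!
For odd `n` there is no variational set of `n + 2` three-dimensional permutation cubes of
order `n` (the parity argument of Bush for index one orthogonal arrays of strength three).
-/

namespace Pool.Agent.H29.VC

open Function

section
variable {n k : ℕ} {C : Fin k → (Fin 3 → Fin n) → Fin n}

/-- The embedding of `Fin 3` given by three distinct indices. -/
def emb3 {i j l : Fin k} (hij : i ≠ j) (hil : i ≠ l) (hjl : j ≠ l) : Fin 3 ↪ Fin k where
  toFun := ![i, j, l]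
  inj' := by
    intro a b hab
    fin_cases a <;> fin_cases b <;> simp_all

theorem ex3 (h : IsVarSet C) {i j l : Fin k} (hij : i ≠ j) (hil : i ≠ l) (hjl : j ≠ l)
    (a b c : Fin n) : ∃ x, C i x = a ∧ C j x = b ∧ C l x = c := by
  obtain ⟨x, hx⟩ := (h.2 (emb3 hij hil hjl)).2 ![a, b, c]
  exact ⟨x, congrFun hx 0, congrFun hx 1, congrFun hx 2⟩

theorem eq3 (h : IsVarSet C) {i j l : Fin k} (hij : i ≠ j) (hil : i ≠ l) (hjl : j ≠ l)
    {x y : Fin 3 → Fin n} (h1 : C i x = C i y) (h2 : C j x = C j y) (h3 : C l x = C l y) :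
    x = y := by
  apply (h.2 (emb3 hij hil hjl)).1
  funext a
  fin_cases a
  · exact h1
  · exact h2
  · exact h3

end

/-- If there are `n + 2` cubes then a cell that agrees with `x0` in the cube `i` agrees with it in
another cube too. -/
theorem two_agree {n : ℕ} (hn : 2 ≤ n) {C : Fin (n + 2) → (Fin 3 → Fin n) → Fin n}
    (h : IsVarSet C) (x0 x : Fin 3 → Fin n) (i : Fin (n + 2)) (hi : C i x = C i x0) :
    ∃ j, j ≠ i ∧ C j x = C j x0 := by
  classical
  by_cases hx : x = x0
  · have : Nontrivial (Fin (n + 2)) := Fin.nontrivial_iff_two_le.2 (by omega)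
    obtain ⟨j, hj⟩ := exists_ne i
    exact ⟨j, hj, by rw [hx]⟩
  have : NeZero n := ⟨by omega⟩
  -- a further coordinate
  have hr : ∀ j : {j : Fin (n + 2) // j ≠ i}, ∃ r : Fin (n + 2), r ≠ i ∧ r ≠ j.1 := by
    intro j
    by_contra hcon
    push Not at hcon
    have hsub : (Finset.univ : Finset (Fin (n + 2))) ⊆ {i, j.1} := by
      intro r _
      rw [Finset.mem_insert, Finset.mem_singleton]
      by_cases hri : r = i
      · exact Or.inl hri
      · exact Or.inr (hcon r hri)
    have h1 := Finset.card_le_card hsub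
    rw [Finset.card_univ, Fintype.card_fin] at h1
    have h2 := Finset.card_le_two (a := i) (b := j.1)
    omega
  choose r hr1 hr2 using hr
  have hf : ∀ p : {j : Fin (n + 2) // j ≠ i} × {d : Fin n // d ≠ 0},
      ∃ y : Fin 3 → Fin n, C i y = C i x0 ∧ C p.1.1 y = C p.1.1 x0 ∧
        C (r p.1) y = C (r p.1) x0 + p.2.1 := by
    intro p
    exact ex3 h p.1.2.symm (hr1 p.1).symm (hr2 p.1).symm _ _ _
  choose f hf1 hf2 hf3 using hf
  have hfne : ∀ p, f p ≠ x0 := by
    intro p he
    have := hf3 p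
    rw [he] at this
    exact p.2.2 (by simpa using this)
  let g : {j : Fin (n + 2) // j ≠ i} × {d : Fin n // d ≠ 0} →
      {y : Fin 3 → Fin n // C i y = C i x0 ∧ y ≠ x0} := fun p => ⟨f p, hf1 p, hfne p⟩
  have hg : Injective g := by
    rintro ⟨j, d⟩ ⟨j', d'⟩ he
    have he' : f (j, d) = f (j', d') := congrArg Subtype.val he
    have hjj : j = j' := by
      by_contra hne
      have hne' : j.1 ≠ j'.1 := fun e => hne (Subtype.ext e)
      apply hfne (j, d)
      refine eq3 h j.2.symm j'.2.symm hne' (hf1 (j, d)) (hf2 (j, d)) ?_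
      rw [he']
      exact hf2 (j', d')
    subst hjj
    have h1 := hf3 (j, d)
    rw [he', hf3 (j, d')] at h1
    have h2 : d' = d := Subtype.ext (add_left_cancel h1)
    rw [h2]
  have hd : Fintype.card {d : Fin n // d ≠ 0} = n - 1 := by
    rw [Fintype.card_subtype_compl, Fintype.card_fin]
    simp
  have hj : Fintype.card {j : Fin (n + 2) // j ≠ i} = n + 1 := by
    rw [Fintype.card_subtype_compl, Fintype.card_fin]
    simp
  -- the cells in the class of `i`
  obtain ⟨j1, hj1⟩ : ∃ j1 : Fin (n + 2), j1 ≠ i := by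
    have : Nontrivial (Fin (n + 2)) := Fin.nontrivial_iff_two_le.2 (by omega)
    exact exists_ne i
  have hr1' := hr1 ⟨j1, hj1⟩
  have hr2' := hr2 ⟨j1, hj1⟩
  have hS : Fintype.card {y : Fin 3 → Fin n // C i y = C i x0} = n * n := by
    have : Bijective fun y : {y : Fin 3 → Fin n // C i y = C i x0} =>
        (C j1 y.1, C (r ⟨j1, hj1⟩) y.1) := by
      constructor
      · intro y z hyz
        have e1 := congrArg Prod.fst hyz
        have e2 := congrArg Prod.snd hyz
        exact Subtype.ext (eq3 h hj1.symm hr1'.symm hr2'.symm (y.2.trans z.2.symm) e1 e2)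
      · rintro ⟨a, b⟩
        obtain ⟨y, y1, y2, y3⟩ := ex3 h hj1.symm hr1'.symm hr2'.symm (C i x0) a b
        exact ⟨⟨y, y1⟩, Prod.ext y2 y3⟩
    rw [Fintype.card_of_bijective this, Fintype.card_prod, Fintype.card_fin]
  have hS' : Fintype.card {y : Fin 3 → Fin n // C i y = C i x0 ∧ y ≠ x0} = n * n - 1 := by
    rw [Fintype.card_subtype] at hS ⊢
    have e : (Finset.univ.filter fun y : Fin 3 → Fin n => C i y = C i x0 ∧ y ≠ x0) =
        (Finset.univ.filter fun y : Fin 3 → Fin n => C i y = C i x0).erase x0 := by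
      ext y
      simp only [Finset.mem_filter, Finset.mem_univ, true_and, Finset.mem_erase]
      tauto
    rw [e, Finset.card_erase_of_mem (by simp), hS]
  have hbij : Bijective g := by
    rw [Fintype.bijective_iff_injective_and_card]
    refine ⟨hg, ?_⟩
    rw [Fintype.card_prod, hd, hj, hS']
    obtain ⟨s, rfl⟩ : ∃ s, n = s + 1 := ⟨n - 1, by omega⟩
    rw [Nat.add_sub_cancel]
    have : (s + 1) * (s + 1) = (s + 1 + 1) * s + 1 := by ring
    rw [this, Nat.add_sub_cancel]
  obtain ⟨⟨j, d⟩, hjd⟩ := hbij.2 ⟨x, hi, hx⟩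
  have : f (j, d) = x := congrArg Subtype.val hjd
  exact ⟨j.1, j.2, by rw [← this]; exact hf2 (j, d)⟩

/-- There are no `n + 2` cubes when `n` is odd. -/
theorem odd_bound {n : ℕ} (hn : 2 ≤ n) (hodd : ¬ Even n)
    {C : Fin (n + 2) → (Fin 3 → Fin n) → Fin n} : ¬ IsVarSet C := by
  classical
  intro h
  apply hodd
  have hnt : Nontrivial (Fin n) := Fin.nontrivial_iff_two_le.2 hn
  let x0 : Fin 3 → Fin n := fun _ => ⟨0, by omega⟩
  let c0 : Fin (n + 2) := ⟨n, by omega⟩
  let c1 : Fin (n + 2) := ⟨n + 1, by omega⟩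
  have h01 : c0 ≠ c1 := by
    intro he
    have := congrArg Fin.val he
    simp only [c0, c1] at this
    omega
  obtain ⟨a, ha⟩ := exists_ne (C c0 x0)
  obtain ⟨b, hb⟩ := exists_ne (C c1 x0)
  let c : Fin n → Fin (n + 2) := fun l => ⟨l.1, by omega⟩
  have hc0 : ∀ l, c0 ≠ c l := by
    intro l he
    have := congrArg Fin.val he
    have hl := l.2
    simp only [c0, c] at this
    omega
  have hc1 : ∀ l, c1 ≠ c l := by
    intro l he
    have := congrArg Fin.val he
    have hl := l.2
    simp only [c1, c] at this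
    omega
  have hcl : ∀ j : Fin (n + 2), j ≠ c0 → j ≠ c1 → ∃ l, c l = j := by
    intro j hj0 hj1
    have h2 := j.2
    have h3 : j.1 ≠ n := fun e => hj0 (Fin.ext e)
    have h4 : j.1 ≠ n + 1 := fun e => hj1 (Fin.ext e)
    exact ⟨⟨j.1, by omega⟩, rfl⟩
  have hcinj : ∀ l l', c l = c l' → l = l' := by
    intro l l' he
    have := congrArg Fin.val he
    exact Fin.ext this
  choose X hX1 hX2 hX3 using fun l : Fin n => ex3 h h01 (hc0 l) (hc1 l) a b (C (c l) x0)
  -- the other coordinate
  have hσ : ∀ l : Fin n, ∃ l', l' ≠ l ∧ C (c l') (X l) = C (c l') x0 := by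
    intro l
    obtain ⟨j, hj, hjx⟩ := two_agree hn h x0 (X l) (c l) (hX3 l)
    have hj0 : j ≠ c0 := by
      rintro rfl
      exact ha ((hX1 l).symm.trans hjx)
    have hj1 : j ≠ c1 := by
      rintro rfl
      exact hb ((hX2 l).symm.trans hjx)
    obtain ⟨l', rfl⟩ := hcl j hj0 hj1
    exact ⟨l', fun e => hj (by rw [e]), hjx⟩
  choose σ hσ1 hσ2 using hσ
  have hXσ : ∀ l, X (σ l) = X l := by
    intro l
    refine eq3 h h01 (hc0 (σ l)) (hc1 (σ l)) ((hX1 _).trans (hX1 l).symm)
      ((hX2 _).trans (hX2 l).symm) ?_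
    rw [hX3, hσ2]
  have hinv : ∀ l, σ (σ l) = l := by
    intro l
    by_contra hne
    -- three agreements force `X l = x0`
    have h1 : C (c (σ (σ l))) (X l) = C (c (σ (σ l))) x0 := by
      have := hσ2 (σ l)
      rwa [hXσ] at this
    have h2 : X l = x0 := by
      refine eq3 h (i := c l) (j := c (σ l)) (l := c (σ (σ l))) ?_ ?_ ?_ (hX3 l) (hσ2 l) h1
      · intro e
        exact hσ1 l (hcinj _ _ e).symm
      · intro e
        exact hne (hcinj _ _ e).symm
      · intro e
        exact hσ1 (σ l) (hcinj _ _ e).symm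
    apply ha
    rw [← hX1 l, h2]
  have hsum : ∑ _l : Fin n, (1 : ZMod 2) = 0 := by
    refine Finset.sum_involution (fun l _ => σ l) ?_ ?_ ?_ ?_
    · intro l _
      decide
    · intro l _ _
      exact hσ1 l
    · intro l _
      exact Finset.mem_univ _
    · intro l _
      exact hinv l
  rw [Finset.sum_const, Finset.card_univ, Fintype.card_fin, nsmul_eq_mul, mul_one] at hsum
  exact (ZMod.natCast_eq_zero_iff_even).1 hsum

end Pool.Agent.H29.VC
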