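import Pool.Agent.H29.VC.Upper
import Pool.Agent.H29.VC.Lower
import Pool.Agent.H29.VC.Bush

namespace Pool.Agent.H29.VC

open Function

/-- Transport of a pair of orthogonal latin squares along an equivalence. -/
def Pair.map {α β : Type} (P : Pair α) (e : α ≃ β) : Pair β where
  A x y := e (P.A (e.symm x) (e.symm y))
  B x y := e (P.B (e.symm x) (e.symm y))
  Al y := e.bijective.comp ((P.Al (e.symm y)).comp e.symm.bijective)
  Ar x := e.bijective.comp ((P.Ar (e.symm x)).comp e.symm.bijective)
  Bl y := e.bijective.comp ((P.Bl (e.symm y)).comp e.symm.bijective)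
  Br x := e.bijective.comp ((P.Br (e.symm x)).comp e.symm.bijective)
  orth x y x' y' h1 h2 := by
    obtain ⟨a, b⟩ := P.orth _ _ _ _ (e.injective h1) (e.injective h2)
    exact ⟨e.symm.injective a, e.symm.injective b⟩

/-- The pair `x + y`, `x + u y` over a commutative ring in which `u` and `u - 1` are units. -/
theorem pair_of_ring {R : Type} [CommRing R] [Finite R] {u v w : R} (hu : u * v = 1)
    (hw : (u - 1) * w = 1) : Nonempty (Pair R) := by
  refine ⟨{ A := fun x y => x + y, B := fun x y => x + u * y, Al := ?_, Ar := ?_, Bl := ?_,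
            Br := ?_, orth := ?_ }⟩
  · intro y
    exact Finite.injective_iff_bijective.1 fun a b hab => add_right_cancel hab
  · intro x
    exact Finite.injective_iff_bijective.1 fun a b hab => add_left_cancel hab
  · intro y
    exact Finite.injective_iff_bijective.1 fun a b hab => add_right_cancel hab
  · intro x
    refine Finite.injective_iff_bijective.1 fun a b hab => ?_
    have h1 : u * a = u * b := add_left_cancel hab
    have h2 : a = v * (u * a) := by linear_combination (-a) * hu
    rw [h2, h1]
    linear_combination b * hu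
  · intro x y x' y' h1 h2
    have hy : y = y' := by
      have h3 : (u - 1) * y = (u - 1) * y' := by linear_combination h2 - h1
      have h4 : y = w * ((u - 1) * y) := by linear_combination (-y) * hw
      rw [h4, h3]
      linear_combination y' * hw
    subst hy
    exact ⟨add_right_cancel h1, rfl⟩

/-- For `n ≢ 2 (mod 4)` there are two orthogonal latin squares of order `n`. -/
theorem pair_of_mod {n : ℕ} (hn : n ≠ 0) (h4 : n % 4 ≠ 2) : Nonempty (Pair (Fin n)) := by
  obtain ⟨a, b, hb, hab⟩ := Nat.exists_eq_two_pow_mul_odd hn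
  have hb0 : b ≠ 0 := by rintro rfl; simp at hb
  have : NeZero b := ⟨hb0⟩
  -- the unit `2` of `ZMod b`
  obtain ⟨v2, hv2⟩ : ∃ v : ZMod b, (2 : ZMod b) * v = 1 := by
    have hc : Nat.Coprime 2 b := (Nat.coprime_two_left).2 hb
    refine ⟨((2 : ZMod b))⁻¹, ?_⟩
    have := ZMod.coe_mul_inv_eq_one 2 hc
    simpa using this
  by_cases ha : a = 0
  · subst ha
    have e : n = b := by rw [hab]; simp
    subst e
    obtain ⟨P⟩ := pair_of_ring (R := ZMod n) (u := 2) (v := v2) (w := 1) hv2 (by ring)
    have e : ZMod n ≃ Fin n := Fintype.equivFinOfCardEq (ZMod.card n)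
    exact ⟨P.map e⟩
  · have ha1 : a ≠ 1 := by
      rintro rfl
      obtain ⟨c, hc⟩ := hb
      omega
    have : Fact (Nat.Prime 2) := ⟨Nat.prime_two⟩
    haveI : Fintype (GaloisField 2 a) := Fintype.ofFinite _
    have hcard : Fintype.card (GaloisField 2 a) = 2 ^ a := by
      rw [← Nat.card_eq_fintype_card]
      exact GaloisField.card 2 a ha
    have h4a : 4 ≤ 2 ^ a := by
      have : 2 ≤ a := by omega
      calc 4 = 2 ^ 2 := by norm_num
        _ ≤ 2 ^ a := Nat.pow_le_pow_right (by norm_num) this
    classical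
    obtain ⟨u, hu⟩ : ∃ u : GaloisField 2 a, u ∉ ({0, 1} : Finset (GaloisField 2 a)) := by
      by_contra hcon
      push Not at hcon
      have hsub : (Finset.univ : Finset (GaloisField 2 a)) ⊆ {0, 1} := fun x _ => hcon x
      have h1 := Finset.card_le_card hsub
      rw [Finset.card_univ, hcard] at h1
      have h2 := Finset.card_le_two (a := (0 : GaloisField 2 a)) (b := 1)
      omega
    simp only [Finset.mem_insert, Finset.mem_singleton, not_or] at hu
    have hu1 : u - 1 ≠ 0 := sub_ne_zero.2 hu.2
    obtain ⟨P⟩ := pair_of_ring (R := GaloisField 2 a × ZMod b) (u := (u, 2)) (v := (u⁻¹, v2))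
      (w := ((u - 1)⁻¹, 1))
      (by
        apply Prod.ext
        · exact mul_inv_cancel₀ hu.1
        · exact hv2)
      (by
        apply Prod.ext
        · exact mul_inv_cancel₀ hu1
        · show ((2 : ZMod b) - 1) * 1 = 1
          ring)
    have hc : Fintype.card (GaloisField 2 a × ZMod b) = n := by
      rw [Fintype.card_prod, hcard, ZMod.card, hab]
    have e : GaloisField 2 a × ZMod b ≃ Fin n := Fintype.equivFinOfCardEq hc
    exact ⟨P.map e⟩

/-- The set of sizes is bounded. -/
theorem bdd {m n : ℕ} (hm : 2 ≤ m) (hn : 2 ≤ n) : BddAbove {k | HasVarSet m n k} := by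
  refine ⟨n + m - 1, ?_⟩
  rintro k ⟨C, hC⟩
  exact bush hm hn hC

theorem nonempty_sizes {m n : ℕ} (hm : 1 ≤ m) : {k | HasVarSet m n k}.Nonempty := by
  refine ⟨0, fun i => i.elim0, fun i => i.elim0, fun s => ?_⟩
  exact (s ⟨0, by omega⟩).elim0

/-- From `π_2(n) ≥ 2` to two orthogonal latin squares. -/
theorem pair_of_piMax {n : ℕ} (h2 : 2 ≤ piMax 2 n) : Nonempty (Pair (Fin n)) := by
  obtain ⟨k, ⟨C, hC⟩, hk⟩ := exists_lt_of_lt_csSup (nonempty_sizes (n := n) (by omega : 1 ≤ 2))
    (lt_of_lt_of_le (by norm_num : 1 < 2) h2)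
  have hk2 : 2 ≤ k := hk
  let c : Fin 2 → Fin k := Fin.castLE hk2
  have hperm := hC.1
  have el : ∀ (i : Fin 2) (y : Fin n), Bijective fun x => C (c i) ![x, y] := by
    intro i y
    have := hperm (c i) ![y, y] 0
    have e : (fun a => C (c i) (update ![y, y] 0 a)) = fun a => C (c i) ![a, y] := by
      funext a
      congr 1
      funext j
      fin_cases j <;> simp
    rwa [e] at this
  have er : ∀ (i : Fin 2) (x : Fin n), Bijective fun y => C (c i) ![x, y] := by
    intro i x
    have := hperm (c i) ![x, x] 1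
    have e : (fun a => C (c i) (update ![x, x] 1 a)) = fun a => C (c i) ![x, a] := by
      funext a
      congr 1
      funext j
      fin_cases j <;> simp
    rwa [e] at this
  have hinj := (hC.2 (Fin.castLEEmb hk2)).1
  refine ⟨{ A := fun x y => C (c 0) ![x, y], B := fun x y => C (c 1) ![x, y], Al := el 0,
            Ar := er 0, Bl := el 1, Br := er 1, orth := ?_ }⟩
  intro x y x' y' h0 h1
  have : (![x, y] : Fin 2 → Fin n) = ![x', y'] := by
    apply hinj
    funext j
    fin_cases j
    · exact h0
    · exact h1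
  exact ⟨congrFun this 0, congrFun this 1⟩

end Pool.Agent.H29.VC
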