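import Pool.Agent.H29.VC.Defs

namespace Pool.Agent.H29.VC

/-- Two cells whose words agree off two coordinates are equal. -/
theorem eq_of_agree {m n k : ℕ} {C : Fin k → (Fin m → Fin n) → Fin n} (h : IsVarSet C)
    {t : ℕ} (ht : t ≤ k) (D : Finset (Fin t)) (hD : m ≤ (Dᶜ).card) (x y : Fin m → Fin n)
    (hxy : ∀ l : Fin t, l ∉ D → C (Fin.castLE ht l) x = C (Fin.castLE ht l) y) : x = y := by
  obtain ⟨s, hs, hc⟩ := Finset.exists_subset_card_eq hD
  have hinj := (h.2 ((s.orderEmbOfFin hc).toEmbedding.trans (Fin.castLEEmb ht))).1
  apply hinj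
  funext j
  have hj : s.orderEmbOfFin hc j ∈ s := Finset.orderEmbOfFin_mem s hc j
  have hj' : s.orderEmbOfFin hc j ∉ D := by
    have := hs hj
    simpa using this
  exact hxy _ hj'

theorem upper {m n k : ℕ} (hn : 2 ≤ n) (hm : n ≤ m)
    {C : Fin k → (Fin m → Fin n) → Fin n} (h : IsVarSet C) : k ≤ m + 1 := by
  by_contra hk
  have ht : m + 2 ≤ k := by omega
  have : NeZero n := ⟨by omega⟩
  let w : (Fin m → Fin n) → Fin (m + 2) → Fin n := fun x l => C (Fin.castLE ht l) x
  let P : (Fin m → Fin n) × Option (Fin (m + 2) × {d : Fin n // d ≠ 0}) → Fin (m + 2) → Fin n :=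
    fun p => match p.2 with
      | none => w p.1
      | some q => Function.update (w p.1) q.1 (w p.1 q.1 + q.2.1)
  have key : ∀ (x y : Fin m → Fin n) (D : Finset (Fin (m + 2))), D.card ≤ 2 →
      (∀ l, l ∉ D → w x l = w y l) → x = y := by
    intro x y D hD hxy
    refine eq_of_agree h ht D ?_ x y hxy
    rw [Finset.card_compl, Fintype.card_fin]
    omega
  have hinj : Function.Injective P := by
    rintro ⟨x, o⟩ ⟨y, o'⟩ hP
    have hxy : x = y := by
      rcases o with _ | ⟨i, d⟩ <;> rcases o' with _ | ⟨i', d'⟩
      · refine key x y ∅ (by simp) ?_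
        intro l _
        exact congrFun hP l
      · refine key x y {i'} (by simp) ?_
        intro l hl
        have hl' : l ≠ i' := by simpa using hl
        have := congrFun hP l
        simpa [P, Function.update_of_ne hl'] using this
      · refine key x y {i} (by simp) ?_
        intro l hl
        have hl' : l ≠ i := by simpa using hl
        have := congrFun hP l
        simpa [P, Function.update_of_ne hl'] using this
      · refine key x y {i, i'} Finset.card_le_two ?_
        intro l hl
        have hl' : l ≠ i ∧ l ≠ i' := by simpa using hl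
        have := congrFun hP l
        simpa [P, Function.update_of_ne hl'.1, Function.update_of_ne hl'.2] using this
    subst hxy
    rcases o with _ | ⟨i, d⟩ <;> rcases o' with _ | ⟨i', d'⟩
    · rfl
    · exfalso
      have := congrFun hP i'
      have h2 : d'.1 = 0 := by simpa [P] using this
      exact d'.2 h2
    · exfalso
      have := congrFun hP i
      have h2 : d.1 = 0 := by simpa [P] using this
      exact d.2 h2
    · by_cases hii : i = i'
      · subst hii
        have := congrFun hP i
        have h2 : d.1 = d'.1 := by simpa [P] using this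
        have h3 : d = d' := Subtype.ext h2
        rw [h3]
      · exfalso
        have := congrFun hP i
        have h2 : d.1 = 0 := by simpa [P, Function.update_of_ne hii] using this
        exact d.2 h2
  have hcard := Fintype.card_le_of_injective P hinj
  have hd : Fintype.card {d : Fin n // d ≠ 0} = n - 1 := by
    rw [Fintype.card_subtype_compl, Fintype.card_fin]
    simp
  simp only [Fintype.card_prod, Fintype.card_option, Fintype.card_fun, Fintype.card_fin, hd]
    at hcard
  rw [pow_add] at hcard
  have hpos : 0 < n ^ m := Nat.pow_pos (by omega)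
  have h3 : (m + 2) * (n - 1) + 1 ≤ n ^ 2 := Nat.le_of_mul_le_mul_left hcard hpos
  obtain ⟨r, rfl⟩ : ∃ r, n = r + 2 := ⟨n - 2, by omega⟩
  have h4 : r + 2 - 1 = r + 1 := by omega
  rw [h4] at h3
  nlinarith [Nat.mul_le_mul_right (r + 1) (Nat.add_le_add_right hm 2)]

end Pool.Agent.H29.VC
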